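import Mathlib

/-!
# Cones over finite sets of integer points

If all determinants of `b` differences of a set `Y ⊆ ℤ^b` are at most `D`, the same holds for the cone
`{0} × Y ∪ {(1, 0)}` in `ℤ^(b+1)`.
-/

set_option autoImplicit false

namespace H43Cone

open Matrix

/-- `Y` is not empty, all determinants of `b` differences are at most `D`, and one of them is not zero. -/
def Good {b : ℕ} (Y : Finset (Fin b → ℤ)) (D : ℤ) : Prop :=
  Y.Nonempty ∧
    (∀ u v : Fin b → Fin b → ℤ, (∀ l, u l ∈ Y) → (∀ l, v l ∈ Y) →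
      |(Matrix.of fun l j : Fin b => u l j - v l j).det| ≤ D) ∧
    (∃ u v : Fin b → Fin b → ℤ, (∀ l, u l ∈ Y) ∧ (∀ l, v l ∈ Y) ∧
      (Matrix.of fun l j : Fin b => u l j - v l j).det ≠ 0)

/-- The apex. -/
def apex (b : ℕ) : Fin (b + 1) → ℤ := Fin.cons 1 (fun _ => 0)

/-- The points of the base. -/
def base {b : ℕ} (y : Fin b → ℤ) : Fin (b + 1) → ℤ := Fin.cons 0 y

theorem base_injective {b : ℕ} : Function.Injective (base (b := b)) := by
  intro x y h
  funext j
  have := congrFun h j.succ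
  simpa [base] using this

/-- The cone. -/
noncomputable def cone {b : ℕ} (Y : Finset (Fin b → ℤ)) : Finset (Fin (b + 1) → ℤ) := by
  classical
  exact insert (apex b) (Y.image base)

theorem mem_cone {b : ℕ} {Y : Finset (Fin b → ℤ)} {z : Fin (b + 1) → ℤ} :
    z ∈ cone Y ↔ z = apex b ∨ ∃ y ∈ Y, base y = z := by
  classical
  simp [cone]

theorem card_cone {b : ℕ} (Y : Finset (Fin b → ℤ)) : (cone Y).card = Y.card + 1 := by
  classical
  unfold cone
  rw [Finset.card_insert_of_notMem, Finset.card_image_of_injective _ base_injective]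
  intro h
  obtain ⟨y, -, hy⟩ := Finset.mem_image.1 h
  have := congrFun hy 0
  simp [base, apex] at this

theorem abs_det_cone {b : ℕ} {Y : Finset (Fin b → ℤ)} {D : ℤ} (hD0 : 0 ≤ D)
    (hD : ∀ u v : Fin b → Fin b → ℤ, (∀ l, u l ∈ Y) → (∀ l, v l ∈ Y) →
      |(Matrix.of fun l j : Fin b => u l j - v l j).det| ≤ D)
    (u v : Fin (b + 1) → Fin (b + 1) → ℤ) (hu : ∀ l, u l ∈ cone Y) (hv : ∀ l, v l ∈ cone Y) :
    |(Matrix.of fun l j : Fin (b + 1) => u l j - v l j).det| ≤ D := by
  classical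
  set A : Matrix (Fin (b + 1)) (Fin (b + 1)) ℤ := Matrix.of fun l j => u l j - v l j with hA
  by_cases h0 : ∀ l, A l 0 = 0
  · rw [Matrix.det_eq_zero_of_column_eq_zero 0 h0]
    simpa using hD0
  push Not at h0
  obtain ⟨p, hp⟩ := h0
  -- the row `p` is `±` (apex - w)
  have hpw : ∃ w ∈ Y, ∃ e : ℤ, (e = 1 ∨ e = -1) ∧ A p 0 = e ∧ ∀ j : Fin b, A p j.succ = - e * w j := by
    rcases mem_cone.1 (hu p) with h1 | ⟨y, hy, h1⟩ <;> rcases mem_cone.1 (hv p) with h2 | ⟨z, hz, h2⟩
    · exfalso
      apply hp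
      simp [hA, h1, h2]
    · refine ⟨z, hz, 1, Or.inl rfl, ?_, fun j => ?_⟩
      · simp [hA, h1, ← h2, apex, base]
      · simp [hA, h1, ← h2, apex, base]
    · refine ⟨y, hy, -1, Or.inr rfl, ?_, fun j => ?_⟩
      · simp [hA, ← h1, h2, apex, base]
      · simp [hA, ← h1, h2, apex, base]
    · exfalso
      apply hp
      simp [hA, ← h1, ← h2, base]
  obtain ⟨w, hw, e, he, hp0, hpj⟩ := hpw
  have hee : e * e = 1 := by rcases he with h | h <;> rw [h] <;> norm_num
  set c : Fin (b + 1) → ℤ := fun l => if l = p then 0 else - (A l 0 * e) with hc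
  set B : Matrix (Fin (b + 1)) (Fin (b + 1)) ℤ := Matrix.of fun l j => A l j + c l * A p j with hB
  have hcp : c p = 0 := by simp [hc]
  have hdet : B.det = A.det := by
    refine Matrix.det_eq_of_forall_row_eq_smul_add_const c p hcp ?_
    intro i j
    simp [hB]
  have hB0 : ∀ l, l ≠ p → B l 0 = 0 := by
    intro l hl
    simp only [hB, Matrix.of_apply, hc, if_neg hl, hp0]
    linear_combination (- (A l 0)) * hee
  have hBp : B p 0 = e := by
    simp only [hB, Matrix.of_apply, hcp, hp0]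
    ring
  have hexp : B.det = (-1) ^ (p : ℕ) * e * (B.submatrix p.succAbove Fin.succ).det := by
    rw [Matrix.det_succ_column_zero, Finset.sum_eq_single p]
    · rw [hBp]
    · intro l _ hl
      rw [hB0 l hl]
      ring
    · intro h
      exact absurd (Finset.mem_univ _) h
  have hrow : ∀ l, l ≠ p → ∃ y ∈ Y, ∃ z ∈ Y, ∀ j : Fin b, B l j.succ = y j - z j := by
    intro l hl
    rcases mem_cone.1 (hu l) with h1 | ⟨y, hy, h1⟩ <;> rcases mem_cone.1 (hv l) with h2 | ⟨z, hz, h2⟩
    · refine ⟨w, hw, w, hw, fun j => ?_⟩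
      simp [hB, hc, hl, hA, h1, h2]
    · refine ⟨w, hw, z, hz, fun j => ?_⟩
      have e1 : A l 0 = 1 := by simp [hA, h1, ← h2, apex, base]
      have e2 : A l j.succ = - z j := by simp [hA, h1, ← h2, apex, base]
      simp only [hB, Matrix.of_apply, hc, if_neg hl, e1, e2, hpj]
      linear_combination (w j) * hee
    · refine ⟨y, hy, w, hw, fun j => ?_⟩
      have e1 : A l 0 = -1 := by simp [hA, ← h1, h2, apex, base]
      have e2 : A l j.succ = y j := by simp [hA, ← h1, h2, apex, base]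
      simp only [hB, Matrix.of_apply, hc, if_neg hl, e1, e2, hpj]
      linear_combination (- w j) * hee
    · refine ⟨y, hy, z, hz, fun j => ?_⟩
      have e1 : A l 0 = 0 := by simp [hA, ← h1, ← h2, base]
      have e2 : A l j.succ = y j - z j := by simp [hA, ← h1, ← h2, base]
      simp only [hB, Matrix.of_apply, hc, if_neg hl, e1, e2]
      ring
  choose! y' hy' z' hz' hyz using hrow
  have hsub : B.submatrix p.succAbove Fin.succ =
      Matrix.of fun l j : Fin b => y' (p.succAbove l) j - z' (p.succAbove l) j := by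
    ext l j
    exact hyz _ (Fin.succAbove_ne p l) j
  have habs : |B.det| = |(B.submatrix p.succAbove Fin.succ).det| := by
    rw [hexp, abs_mul, abs_mul, abs_pow, abs_neg, abs_one, one_pow, one_mul]
    rcases he with h | h <;> rw [h] <;> simp
  rw [← hdet, habs, hsub]
  exact hD (fun l => y' (p.succAbove l)) (fun l => z' (p.succAbove l))
    (fun l => hy' _ (Fin.succAbove_ne p l)) (fun l => hz' _ (Fin.succAbove_ne p l))

theorem good_cone {b : ℕ} {Y : Finset (Fin b → ℤ)} {D : ℤ} (h : Good Y D) : Good (cone Y) D := by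
  classical
  obtain ⟨⟨y0, hy0⟩, hD, u, v, hu, hv, hne⟩ := h
  have hD0 : 0 ≤ D := (abs_nonneg _).trans (hD u v hu hv)
  refine ⟨⟨_, mem_cone.2 (Or.inl rfl)⟩, fun u v hu hv => abs_det_cone hD0 hD u v hu hv,
    Fin.cons (apex b) (fun l => base (u l)), Fin.cons (base y0) (fun l => base (v l)), ?_, ?_, ?_⟩
  · intro l
    refine Fin.cases ?_ (fun l => ?_) l
    · exact mem_cone.2 (Or.inl rfl)
    · exact mem_cone.2 (Or.inr ⟨_, hu l, rfl⟩)
  · intro l
    refine Fin.cases ?_ (fun l => ?_) l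
    · exact mem_cone.2 (Or.inr ⟨_, hy0, rfl⟩)
    · exact mem_cone.2 (Or.inr ⟨_, hv l, rfl⟩)
  · rw [Matrix.det_succ_column_zero, Finset.sum_eq_single 0]
    · have h1 : ((Matrix.of fun l j : Fin (b + 1) =>
          (Fin.cons (apex b) (fun l => base (u l)) : Fin (b + 1) → Fin (b + 1) → ℤ) l j -
          (Fin.cons (base y0) (fun l => base (v l)) : Fin (b + 1) → Fin (b + 1) → ℤ) l j).submatrix
            (Fin.succAbove 0) Fin.succ) = Matrix.of fun l j : Fin b => u l j - v l j := by
        ext l j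
        simp [base]
      rw [h1]
      simpa [apex, base] using hne
    · intro l _ hl
      obtain ⟨k, rfl⟩ := Fin.exists_succ_eq.2 hl
      simp [base]
    · intro h
      exact absurd (Finset.mem_univ _) h

/-- `k` cones. -/
theorem exists_cones {b : ℕ} {Y : Finset (Fin b → ℤ)} {D : ℤ} (h : Good Y D) (k : ℕ) :
    ∃ Y' : Finset (Fin (b + k) → ℤ), Y'.card = Y.card + k ∧ Good Y' D := by
  induction k with
  | zero => exact ⟨Y, rfl, h⟩
  | succ k ih =>
    obtain ⟨Y', h1, h2⟩ := ih
    exact ⟨cone Y', by rw [card_cone, h1, Nat.add_assoc], good_cone h2⟩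

end H43Cone
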